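import Mathlib
import Pool.Agent.Helpers.RotDefs
import Pool.Agent.Helpers.RotProof

set_option autoImplicit false

namespace Pool.Agent.Results.MP_f8ee93_co.MinGenusNotStrong

open Pool.Agent.H12.Rot

/-- There is a (simple, connected, bridgeless) cubic graph on 10 vertices, of genus 1, such that in
every embedding of it in the orientable surface of genus 1 some region perimeter traverses some
edge twice. -/
theorem result : ∃ G : SimpleGraph (Fin 10),
    G.Connected ∧
    (∀ v : Fin 10, (G.neighborSet v).ncard = 3) ∧
    (∀ e ∈ G.edgeSet, ¬ G.IsBridge e) ∧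
    IsGenus G 1 ∧
    (∀ σ : Equiv.Perm G.Dart, IsRotation G σ → HasGenus G σ 1 → SomeEdgeTwice G σ) :=
  ⟨Gr, conn, cubic, no_bridge, genus_one, all_twice⟩

end Pool.Agent.Results.MP_f8ee93_co.MinGenusNotStrong
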